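import Pool.Agent.P.MP_0234e1_an.Core

/-!
The asymptotic p-variance bound for critical points of polynomials (Q1), for every p ≥ 1,
with constants that do not depend on p.
-/

open Polynomial

namespace Pool.Agent.Results.MP_0234e1_an.AsymptoticVariance

/-- The p-variance of the zeros of `F` (listed with multiplicity):
the infimum over `c` of `((1/n) ∑ |z_k - c|^p)^(1/p)`, `n` the degree of `F`. -/
noncomputable def sigma (p : ℝ) (F : ℂ[X]) : ℝ :=
  ⨅ c : ℂ, ((F.roots.map fun z => ‖z - c‖ ^ p).sum / F.natDegree) ^ (1 / p)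

/-- The one-sided Hausdorff distance from the zeros of `F` to the zeros of `G`:
the supremum over zeros `z` of `F` of the distance from `z` to the zero set of `G`. -/
noncomputable def hdist (F G : ℂ[X]) : ℝ :=
  ⨆ z : {z : ℂ // F.IsRoot z}, Metric.infDist (z : ℂ) {w : ℂ | G.IsRoot w}

open Pool.Agent.P.MP_0234e1_an

lemma exists_fun (s : Multiset ℂ) (n : ℕ) (hn : Multiset.card s = n) :
    ∃ f : Fin n → ℂ, Finset.univ.val.map f = s := by
  subst hn
  induction s using Quotient.inductionOn with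
  | h l =>
    refine ⟨l.get, ?_⟩
    have := Fin.univ_val_map l.get
    rw [List.ofFn_get] at this
    exact this

lemma crit (F : ℂ[X]) (hF : 2 ≤ F.natDegree) (a : ℂ) (ha : F.IsRoot a) :
    ∃ w : ℂ, F.derivative.IsRoot w ∧ ∀ p : ℝ, 1 ≤ p → ∀ c : ℂ, dd F.natDegree * ‖a - w‖ ≤
      ((F.roots.map fun z => ‖z - c‖ ^ p).sum / F.natDegree) ^ (1 / p) := by
  have hF0 : F ≠ 0 := by
    rintro rfl
    simp at hF
  have hF' : F.derivative ≠ 0 := by
    intro h
    have := derivative_eq_zero.mp h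
    omega
  have c1 : Multiset.card F.roots = F.natDegree := (IsAlgClosed.splits F).natDegree_eq_card_roots.symm
  have c2 : Multiset.card F.derivative.roots = F.natDegree - 1 := by
    rw [← (IsAlgClosed.splits F.derivative).natDegree_eq_card_roots, natDegree_derivative]
  obtain ⟨z, hz⟩ := exists_fun F.roots _ c1
  obtain ⟨w, hw⟩ := exists_fun F.derivative.roots _ c2
  have hc : Fintype.card (Fin F.natDegree) = Fintype.card (Fin (F.natDegree - 1)) + 1 := by
    rw [Fintype.card_fin, Fintype.card_fin]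
    omega
  have e1 : F = C F.leadingCoeff * ∏ i, (X - C (z i)) := by
    conv_lhs => rw [(IsAlgClosed.splits F).eq_prod_roots, ← hz, Multiset.map_map]
    rfl
  have e2 : F.derivative = C F.derivative.leadingCoeff * ∏ i, (X - C (w i)) := by
    conv_lhs => rw [(IsAlgClosed.splits F.derivative).eq_prod_roots, ← hw, Multiset.map_map]
    rfl
  have H : derivative (∏ i, (X - C (z i)))
      = C (Fintype.card (Fin F.natDegree) : ℂ) * ∏ j, (X - C (w j)) := by
    have h4 : (C F.leadingCoeff : ℂ[X]) ≠ 0 := by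
      rw [Ne, C_eq_zero]
      exact leadingCoeff_ne_zero.mpr hF0
    apply mul_left_cancel₀ h4
    rw [← derivative_C_mul, ← e1, ← mul_assoc, ← C_mul, Fintype.card_fin,
      ← leadingCoeff_derivative, ← e2]
  have : Nonempty (Fin (F.natDegree - 1)) := ⟨⟨0, by omega⟩⟩
  have ha' : a ∈ F.roots := (mem_roots hF0).mpr ha
  rw [← hz] at ha'
  obtain ⟨i0, -, rfl⟩ := Multiset.mem_map.mp ha'
  obtain ⟨j, hj⟩ := core2 z w hc H i0
  refine ⟨w j, ?_, fun p hp c => ?_⟩
  · rw [← mem_roots hF', ← hw]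
    exact Multiset.mem_map.mpr ⟨j, by simp, rfl⟩
  have h1 := hj c
  rw [Fintype.card_fin] at h1
  refine h1.trans ?_
  have hn0 : (0 : ℝ) < F.natDegree := by exact_mod_cast (by omega : 0 < F.natDegree)
  have h2 := Real.arith_mean_le_rpow_mean Finset.univ (fun _ => 1 / (F.natDegree : ℝ))
    (fun i => ‖z i - c‖) (fun _ _ => by positivity)
    (by rw [Finset.sum_const, Finset.card_univ, Fintype.card_fin, nsmul_eq_mul]; field_simp)
    (fun _ _ => norm_nonneg _) hp
  have h3 : (F.roots.map fun z => ‖z - c‖ ^ p).sum = ∑ i, ‖z i - c‖ ^ p := by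
    conv_lhs => rw [← hz, Multiset.map_map]
    rfl
  rw [h3]
  simpa only [one_div_mul_eq_div, ← Finset.sum_div] using h2

theorem result :
    ∃ C : ℕ → ℝ, (∀ n, 1 ≤ C n) ∧ Filter.Tendsto C Filter.atTop (nhds 1) ∧
      ∀ p : ℝ, 1 ≤ p → ∀ F : ℂ[X], 2 ≤ F.natDegree →
        hdist F F.derivative ≤ C F.natDegree * sigma p F := by
  refine ⟨fun n => (dd n)⁻¹, fun n => (one_le_inv₀ (dd_pos n)).mpr (dd_le_one n), ?_, ?_⟩
  · simpa using dd_tendsto.inv₀ one_ne_zero
  intro p hp F hF
  have hs : 0 ≤ sigma p F := by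
    apply Real.iInf_nonneg
    intro c
    apply Real.rpow_nonneg
    apply div_nonneg _ (Nat.cast_nonneg _)
    apply Multiset.sum_nonneg
    intro x hx
    obtain ⟨u, -, rfl⟩ := Multiset.mem_map.mp hx
    positivity
  have hd := dd_pos F.natDegree
  apply Real.iSup_le _ (by positivity)
  rintro ⟨a, ha⟩
  obtain ⟨w, hw, h⟩ := crit F hF a ha
  refine (Metric.infDist_le_dist_of_mem (y := w) hw).trans ?_
  rw [dist_eq_norm, le_inv_mul_iff₀ hd]
  exact le_ciInf (h p hp)

end Pool.Agent.Results.MP_0234e1_an.AsymptoticVariance
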